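import Pool.Agent.TH598.GV.Field2

/-!
Job 5812 (helper598, MP_f80465_gt): from the curvature tensor to components, strict form.
-/

set_option autoImplicit false

namespace Pool.Agent.TH6.J5812

open Finset MeasureTheory Module
open Pool.Agent.W666.GB Pool.Agent.TH598.GV
open scoped ComplexConjugate ComplexOrder

/-- the strict coordinate theorem (proved by helper598) -/
def StrictCoord : Prop := ∀ {k : ℕ} (H : Ix k → Ix k → Ix k → Ix k → ℂ) (_ : HS H)
    (_ : (BB H).PosDef) (_ : ∀ z w : Ix k → ℂ, 0 ≤ (qf H z w).re)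
    (_ : ∀ z : Ix k → ℂ, z e1 = 0 → z ≠ 0 → 0 < (qf H z (wv fun _ => 0)).re), 0 < (GG H).re

variable {V : Type} [NormedAddCommGroup V] [InnerProductSpace ℝ V] {m : ℕ}

/-- all sectional curvatures are negative -/
def SecNeg (R : V → V → V → V → ℝ) : Prop :=
  ∀ x y : V, 0 < unitR x y x y → R x y x y < 0

/-- the curvature operator is negative definite on the bivectors of `S` -/
def OpNegOn (R : V → V → V → V → ℝ) (S : Submodule ℝ V) : Prop :=
  ∀ (n : ℕ) (a b : Fin n → V), (∀ i, a i ∈ S) → (∀ i, b i ∈ S) →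
    0 < ∑ i, ∑ j, unitR (a i) (b i) (a j) (b j) → ∑ i, ∑ j, R (a i) (b i) (a j) (b j) < 0

/-! ### the index pairs -/

/-- numbering of the indices -/
def ph {k : ℕ} (i : Ix k) : ℕ := 2 * i.1 + (if i.2 then 1 else 0)

theorem pr_lt {k : ℕ} (s : Sx k) : ph (pr s).1 < ph (pr s).2 := by
  rcases s with j | p
  · simp only [pr, ph, e1, TH598.GV.em, Fin.val_succ, Fin.val_zero, if_true]
    split_ifs <;> omega
  · obtain ⟨⟨⟨a1, b1⟩, ⟨a2, b2⟩⟩, h⟩ := p
    simp only [ps] at h
    simp only [pr, ph, TH598.GV.em, Fin.val_succ]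
    cases b1 <;> cases b2 <;> simp at h ⊢ <;> omega

theorem em_inj {k : ℕ} {i j : K k} (h : TH598.GV.em i = TH598.GV.em j) : i = j := by
  simp only [TH598.GV.em, Prod.mk.injEq, Fin.succ_inj] at h
  exact Prod.ext h.1 h.2

theorem pr_inj {k : ℕ} {s t : Sx k} (h : pr s = pr t) : s = t := by
  rcases s with j | p <;> rcases t with j' | p'
  · simp only [pr, Prod.mk.injEq] at h
    rw [em_inj h.2]
  · simp only [pr, Prod.mk.injEq] at h
    have h1 := congrArg (fun x : Ix k => (x.1 : ℕ)) h.1
    simp [e1, TH598.GV.em] at h1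
  · simp only [pr, Prod.mk.injEq] at h
    have h1 := congrArg (fun x : Ix k => (x.1 : ℕ)) h.1
    simp [e1, TH598.GV.em] at h1
  · simp only [pr, Prod.mk.injEq] at h
    congr 1
    exact Subtype.ext (Prod.ext (em_inj h.1) (em_inj h.2))

theorem pr_ne1 {k : ℕ} (s : Sx k) : (pr s).1 ≠ e0 := by
  rcases s with j | p
  · simp [pr, e1, e0]
  · intro h
    have h1 := congrArg (fun x : Ix k => (x.1 : ℕ)) h
    simp [pr, e0, TH598.GV.em] at h1

theorem pr_ne2 {k : ℕ} (s : Sx k) : (pr s).2 ≠ e0 := by
  intro h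
  have h1 := pr_lt s
  rw [h] at h1
  simp [ph, e0] at h1

/-! ### the block -/

section
variable {R : V → V → V → V → ℝ}

theorem zero1 (hR : AlgCurv R) (y z w : V) : R 0 y z w = 0 := by
  have := hR.smul 0 0 y z w
  rwa [zero_smul, zero_mul] at this

theorem zero2 (hR : AlgCurv R) (x z w : V) : R x 0 z w = 0 := by
  rw [hR.anti 0 x z w, zero1 hR, neg_zero]

theorem zero4 (hR : AlgCurv R) (x y z : V) : R x y z 0 = 0 := by
  rw [hR.pair z 0 x y, zero2 hR]

theorem term (hR : AlgCurv R) (p q : ℝ) (u v u' v' : V) :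
    R (p • u) v (q • u') v' = R u v u' v' * (p * q) := by
  rw [hR.smul, hR.pair (q • u') v' u v, hR.smul, hR.pair u v u' v']
  ring

theorem reindex {I : Type} [Fintype I] (T : V → V → V → V → ℝ) (a b : I → V) :
    ∑ i : Fin (Fintype.card I), ∑ j : Fin (Fintype.card I),
      T (a ((Fintype.equivFin I).symm i)) (b ((Fintype.equivFin I).symm i))
        (a ((Fintype.equivFin I).symm j)) (b ((Fintype.equivFin I).symm j)) =
      ∑ s, ∑ t, T (a s) (b s) (a t) (b t) := by
  rw [Equiv.sum_comp (Fintype.equivFin I).symm (fun s => ∑ j : Fin (Fintype.card I),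
    T (a s) (b s) (a ((Fintype.equivFin I).symm j)) (b ((Fintype.equivFin I).symm j)))]
  exact Finset.sum_congr rfl fun s _ =>
    Equiv.sum_comp (Fintype.equivFin I).symm (fun t => T (a s) (b s) (a t) (b t))

theorem unit_sum {n : ℕ} (f : OrthonormalBasis (Ix n) ℝ V) (y : Sx n → ℝ) :
    ∑ s, ∑ t, unitR (f (pr s).1) (f (pr s).2) (f (pr t).1) (f (pr t).2) * (y s * y t) =
      ∑ s, y s * y s := by
  classical
  have hin : ∀ i j, inner ℝ (f i) (f j) = if i = j then (1 : ℝ) else 0 := fun i j => by
    rw [f.inner_eq_ite]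
  refine Finset.sum_congr rfl fun s _ => ?_
  rw [Finset.sum_eq_single s]
  · have h1 : (pr s).1 ≠ (pr s).2 := fun h => by
      have := pr_lt s
      rw [h] at this
      exact lt_irrefl _ this
    simp only [unitR, hin, if_true, if_neg h1, if_neg h1.symm]
    ring
  · intro t _ hts
    simp only [unitR, hin]
    by_cases h1 : (pr s).1 = (pr t).1
    · have h2 : (pr s).2 ≠ (pr t).2 := fun h2 => hts (pr_inj (Prod.ext h1 h2)).symm
      have h3 : (pr s).1 ≠ (pr t).2 := fun h3 => by
        have := pr_lt t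
        rw [← h1, ← h3] at this
        exact lt_irrefl _ this
      rw [if_neg h2, if_neg h3]
      ring
    · rw [if_neg h1]
      by_cases h3 : (pr s).1 = (pr t).2
      · have h4 : (pr s).2 ≠ (pr t).1 := fun h4 => by
          have h5 := pr_lt s
          have h6 := pr_lt t
          rw [h3, h4] at h5
          exact lt_asymm h5 h6
        rw [if_neg h4]
        ring
      · rw [if_neg h3]
        ring
  · intro h
    exact absurd (Finset.mem_univ _) h

theorem pos_real (hR : AlgCurv R) {n : ℕ} (f : OrthonormalBasis (Ix n) ℝ V)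
    (S : Submodule ℝ V) (hf : ∀ j, j ≠ e0 → f j ∈ S) (hO : OpNegOn R S) (y : Sx n → ℝ)
    (hy : y ≠ 0) :
    0 < ∑ s, ∑ t, -R (f (pr s).1) (f (pr s).2) (f (pr t).1) (f (pr t).2) * (y s * y t) := by
  have h0 := reindex (fun a b c d => unitR a b c d) (fun s : Sx n => y s • f (pr s).1)
    (fun s => f (pr s).2)
  have h1 := reindex R (fun s : Sx n => y s • f (pr s).1) (fun s => f (pr s).2)
  have h2 : 0 < ∑ s : Sx n, y s * y s := by
    obtain ⟨s, hs⟩ := Function.ne_iff.mp hy
    exact Finset.sum_pos' (fun i _ => mul_self_nonneg _)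
      ⟨s, Finset.mem_univ _, mul_self_pos.mpr hs⟩
  have h3 := hO _ (fun i => (fun s : Sx n => y s • f (pr s).1) ((Fintype.equivFin (Sx n)).symm i))
    (fun i => (fun s : Sx n => f (pr s).2) ((Fintype.equivFin (Sx n)).symm i))
    (fun i => S.smul_mem _ (hf _ (pr_ne1 _))) (fun i => hf _ (pr_ne2 _)) (by
      refine lt_of_lt_of_eq ?_ h0.symm
      simp only [term unit_curv]
      rw [unit_sum]
      exact h2)
  have h4 := lt_of_eq_of_lt h1.symm h3
  simp only [term hR] at h4
  simp only [neg_mul, Finset.sum_neg_distrib]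
  linarith

/-- the block is positive definite -/
theorem pos_block (hR : AlgCurv R) {n : ℕ} (f : OrthonormalBasis (Ix n) ℝ V)
    (S : Submodule ℝ V) (hf : ∀ j, j ≠ e0 → f j ∈ S) (hO : OpNegOn R S) :
    (BB (fun a b c d : Ix n => (((-R (f a) (f b) (f c) (f d) : ℝ)) : ℂ))).PosDef := by
  let N : Sx n → Sx n → ℝ := fun s t =>
    -R (f (pr s).1) (f (pr s).2) (f (pr t).1) (f (pr t).2)
  have hN : ∀ s t, N s t = N t s := fun s t => by
    simp only [N]
    rw [hR.pair]
  refine Matrix.PosDef.of_dotProduct_mulVec_pos ?_ ?_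
  · ext s t
    simp only [BB, Matrix.conjTranspose_apply]
    rw [Complex.star_def, Complex.conj_ofReal]
    exact congrArg _ (hN t s)
  · intro x hx
    have key : star x ⬝ᵥ ((BB (fun a b c d : Ix n =>
        (((-R (f a) (f b) (f c) (f d) : ℝ)) : ℂ))).mulVec x) =
        (((∑ s, ∑ t, N s t * ((x s).re * (x t).re)) +
          ∑ s, ∑ t, N s t * ((x s).im * (x t).im) : ℝ) : ℂ) := by
      have e : star x ⬝ᵥ ((BB (fun a b c d : Ix n =>
          (((-R (f a) (f b) (f c) (f d) : ℝ)) : ℂ))).mulVec x) =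
          ∑ s, ∑ t, (N s t : ℂ) * (conj (x s) * x t) := by
        simp only [dotProduct, Matrix.mulVec, Finset.mul_sum, Pi.star_apply, Complex.star_def, BB, N]
        refine Finset.sum_congr rfl fun s _ => Finset.sum_congr rfl fun t _ => by ring
      rw [e]
      apply Complex.ext
      · simp only [Complex.re_sum, Complex.ofReal_re, Complex.ofReal_im, Complex.mul_re,
          Complex.conj_re, Complex.conj_im, ← Finset.sum_add_distrib, zero_mul, sub_zero]
        refine Finset.sum_congr rfl fun s _ => Finset.sum_congr rfl fun t _ => by ring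
      · simp only [Complex.im_sum, Complex.ofReal_im, Complex.ofReal_re, Complex.mul_im,
          Complex.conj_re, Complex.conj_im, zero_mul, add_zero]
        have h1 : ∑ s, ∑ t, N s t * ((x s).re * (x t).im + -(x s).im * (x t).re) =
            -∑ s, ∑ t, N s t * ((x s).re * (x t).im + -(x s).im * (x t).re) := by
          conv_rhs => rw [Finset.sum_comm]
          rw [← Finset.sum_neg_distrib]
          refine Finset.sum_congr rfl fun s _ => ?_
          rw [← Finset.sum_neg_distrib]
          refine Finset.sum_congr rfl fun t _ => ?_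
          rw [hN t s]
          ring
        linarith
    rw [key]
    have hpos : ∀ y : Sx n → ℝ, 0 ≤ ∑ s, ∑ t, N s t * (y s * y t) := by
      intro y
      by_cases h : y = 0
      · simp [h]
      · exact (pos_real hR f S hf hO y h).le
    have : 0 < (∑ s, ∑ t, N s t * ((x s).re * (x t).re)) +
          ∑ s, ∑ t, N s t * ((x s).im * (x t).im) := by
      by_cases h : (fun s => (x s).re) = 0
      · have h' : (fun s => (x s).im) ≠ 0 := by
          intro h'
          apply hx
          funext s
          exact Complex.ext (congrFun h s) (congrFun h' s)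
        exact add_pos_of_nonneg_of_pos (hpos fun s => (x s).re)
          (pos_real hR f S hf hO (fun s => (x s).im) h')
      · exact add_pos_of_pos_of_nonneg (pos_real hR f S hf hO (fun s => (x s).re) h)
          (hpos fun s => (x s).im)
    exact_mod_cast this

/-- the Hermitian form of the components -/
theorem qf_nonneg (hR : AlgCurv R) (hC : CxNonpos R) {n : ℕ} (f : Ix n → V) (z w : Ix n → ℂ) :
    0 ≤ (qf (fun a b c d => (((-R (f a) (f b) (f c) (f d) : ℝ)) : ℂ)) z w).re := by
  rw [qf_comp hR f z w]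
  have := hC (vc f fun a => (z a).re) (vc f fun a => (z a).im) (vc f fun a => (w a).re)
    (vc f fun a => (w a).im)
  simp only [cxs]
  linarith

theorem qf_pos (hR : AlgCurv R) (hN : SecNeg R) {n : ℕ} (f : OrthonormalBasis (Ix n) ℝ V)
    (z : Ix n → ℂ) (hz : z e1 = 0) (hz0 : z ≠ 0) :
    0 < (qf (fun a b c d => (((-R (f a) (f b) (f c) (f d) : ℝ)) : ℂ)) z (wv fun _ => 0)).re := by
  rw [qf_comp hR f z _]
  have hw : ∀ i, (wv (fun _ => 0) : Ix n → ℂ) i = if i = e1 then 1 else 0 := by
    intro i
    simp [wv]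
  have hu : (vc f fun a => ((wv (fun _ => 0) : Ix n → ℂ) a).re) = f e1 := by
    unfold vc
    rw [Finset.sum_eq_single (e1 : Ix n)]
    · simp [hw]
    · intro i _ hi
      simp [hw, hi]
    · intro h
      exact absurd (Finset.mem_univ _) h
  have hv : (vc f fun a => ((wv (fun _ => 0) : Ix n → ℂ) a).im) = 0 := by
    unfold vc
    refine Finset.sum_eq_zero fun i _ => ?_
    simp only [hw]
    split_ifs <;> simp
  rw [hu, hv]
  simp only [cxs, zero2 hR, zero4 hR]
  -- the single terms
  have key : ∀ c : Ix n → ℝ, c e1 = 0 → R (vc f c) (f e1) (vc f c) (f e1) ≤ 0 ∧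
      (c ≠ 0 → R (vc f c) (f e1) (vc f c) (f e1) < 0) := by
    intro c hc
    have h1 : inner ℝ (vc f c) (f e1) = 0 := by
      unfold vc
      rw [sum_inner]
      refine Finset.sum_eq_zero fun i _ => ?_
      rw [inner_smul_left, f.inner_eq_ite]
      by_cases hi : i = e1
      · rw [hi, hc]; simp
      · rw [if_neg hi]; simp
    have h2 : inner ℝ (f e1) (f e1) = (1 : ℝ) := by
      rw [f.inner_eq_ite, if_pos rfl]
    have h3 : c ≠ 0 → R (vc f c) (f e1) (vc f c) (f e1) < 0 := by
      intro hc0
      apply hN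
      simp only [unitR]
      rw [h2, real_inner_comm, h1]
      have h4 : vc f c ≠ 0 := by
        intro h
        apply hc0
        funext i
        have h5 : inner ℝ (f i) (vc f c) = c i := by
          unfold vc
          rw [inner_sum, Finset.sum_eq_single i]
          · rw [inner_smul_right, f.inner_eq_ite, if_pos rfl, mul_one]
          · intro j _ hj
            rw [inner_smul_right, f.inner_eq_ite, if_neg (Ne.symm hj), mul_zero]
          · intro h
            exact absurd (Finset.mem_univ _) h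
        rw [← h5, h, inner_zero_right]
        rfl
      have h6 : 0 < inner ℝ (vc f c) (vc f c) := real_inner_self_pos.mpr h4
      nlinarith
    refine ⟨?_, h3⟩
    by_cases hc0 : c = 0
    · have : vc f c = 0 := by
        rw [hc0]
        unfold vc
        simp
      rw [this, zero1 hR]
    · exact (h3 hc0).le
  have hx := key (fun a => (z a).re) (by simp [hz])
  have hy := key (fun a => (z a).im) (by simp [hz])
  by_cases h : (fun a => (z a).re) = 0
  · have h' : (fun a => (z a).im) ≠ 0 := by
      intro h'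
      apply hz0
      funext s
      exact Complex.ext (congrFun h s) (congrFun h' s)
    have := hy.2 h'
    linarith [hx.1]
  · have := hx.2 h
    linarith [hy.1]

end

theorem point_strict2 (strict : StrictCoord)
    (e : OrthonormalBasis (Fin m × Bool) ℝ V) {R : V → V → V → V → ℝ} (hR : AlgCurv R)
    (hC : CxNonpos R) (hN : SecNeg R) (S : Submodule ℝ V)
    (hS : finrank ℝ S + 1 = 2 * m) (hO : OpNegOn R S) : 0 < (-1) ^ m * gbc e R := by
  classical
  have hm : 0 < m := by omega
  obtain ⟨n, rfl⟩ : ∃ n, m = n + 1 := ⟨m - 1, by omega⟩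
  obtain ⟨f, hf⟩ := adapted e S (univ.erase (e0 : Ix n)) (by
    rw [Finset.card_erase_of_mem (Finset.mem_univ _), Finset.card_univ, Fintype.card_prod,
      Fintype.card_fin, Fintype.card_bool]
    omega)
  have hf' : ∀ j, j ≠ e0 → f j ∈ S := fun j hj => hf j (Finset.mem_erase.mpr ⟨hj, mem_univ _⟩)
  rw [Pool.Agent.W688.HD.bas (n + 1) V e f R hR]
  have hHS : HS (fun a b c d : Ix n => (((-R (f a) (f b) (f c) (f d) : ℝ)) : ℂ)) := by
    constructor
    · intro i j k l
      rw [Complex.conj_ofReal, hR.pair]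
    · intro i j k l
      rw [hR.anti]; push_cast; ring
  have key := strict (fun a b c d : Ix n => (((-R (f a) (f b) (f c) (f d) : ℝ)) : ℂ)) hHS
    (pos_block hR f S hf' hO) (fun z w => qf_nonneg hR hC f z w)
    (fun z hz hz0 => qf_pos hR hN f z hz hz0)
  let Rf : Fin (n + 1) × Bool → Fin (n + 1) × Bool → Fin (n + 1) × Bool → Fin (n + 1) × Bool → ℝ :=
    fun i j k l => -R (f i) (f j) (f k) (f l)
  have key' : 0 < (GG (fun a b c d : Ix n => ((Rf a b c d : ℝ) : ℂ))).re := key
  rw [Pool.Agent.TH828.J3423.GG_re] at key'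
  have hsum : ∑ σ : Equiv.Perm (Fin (n + 1) × Bool), ∑ τ : Equiv.Perm (Fin (n + 1) × Bool),
        Pool.Agent.W666.GB.sn σ * Pool.Agent.W666.GB.sn τ *
          ∏ b : Fin (n + 1), Rf (σ (b, false)) (σ (b, true)) (τ (b, false)) (τ (b, true)) =
      (-1) ^ (n + 1) * ∑ σ : Equiv.Perm (Fin (n + 1) × Bool),
        ∑ τ : Equiv.Perm (Fin (n + 1) × Bool),
        ((Equiv.Perm.sign σ : ℤ) : ℝ) * ((Equiv.Perm.sign τ : ℤ) : ℝ) *
          ∏ b : Fin (n + 1), R (f (σ (b, false))) (f (σ (b, true))) (f (τ (b, false)))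
            (f (τ (b, true))) := by
    simp only [Rf, Finset.prod_neg, Finset.mul_sum, Finset.card_univ, Fintype.card_fin,
      Pool.Agent.W666.GB.sn]
    refine Finset.sum_congr rfl fun σ _ => Finset.sum_congr rfl fun τ _ => by ring
  rw [hsum] at key'
  have hπ := Real.pi_pos
  have hc : 0 < 1 / ((8 * Real.pi) ^ (n + 1) * ((n + 1).factorial : ℝ)) := by positivity
  have h1 := mul_pos hc key'
  refine h1.trans_le (le_of_eq ?_)
  unfold gbc
  ring

end Pool.Agent.TH6.J5812
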